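import Pool.Agent.Lib.MP_04668c_co.E.Base

/-!
# YDROP, YBASE, KDIM: dimensions of spaces of placements
-/

set_option autoImplicit false
set_option linter.unusedSectionVars false

namespace Pool.Agent.Lib.MP_04668c_co.E.H80

open Finset Classical Module
open Pool.Agent.Lib.MP_04668c_co

variable {V X : Type} [Fintype V] [Fintype X]

/-- Every functional is a pairing. -/
theorem exists_ip (g : (V → ℝ × ℝ) →ₗ[ℝ] ℝ) : ∃ F : V → ℝ × ℝ,
    (∀ v, F v = (g (Pi.single v (1, 0)), g (Pi.single v (0, 1)))) ∧ ∀ p, ip p F = g p := by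
  refine ⟨fun v => (g (Pi.single v (1, 0)), g (Pi.single v (0, 1))), fun v => rfl, fun p => ?_⟩
  rw [ip_apply]
  have h : p = ∑ v, ((p v).1 • (Pi.single v (1, 0) : V → ℝ × ℝ) +
      (p v).2 • (Pi.single v (0, 1) : V → ℝ × ℝ)) := by
    funext w
    rw [Finset.sum_apply, Finset.sum_eq_single w]
    · simp
    · intro b _ hb
      simp [Pi.single_eq_of_ne (Ne.symm hb)]
    · intro h; exact absurd (mem_univ _) h
  conv_rhs => rw [h]
  rw [map_sum]
  refine Finset.sum_congr rfl (fun v _ => ?_)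
  rw [map_add, map_smul, map_smul, smul_eq_mul, smul_eq_mul]
  ring

/-- Restriction of a placement to a set of vertices. -/
def res (A : Finset V) : (V → ℝ × ℝ) →ₗ[ℝ] (A → ℝ × ℝ) := LinearMap.funLeft ℝ (ℝ × ℝ) Subtype.val

theorem res_apply (A : Finset V) (p : V → ℝ × ℝ) (v : A) : res A p v = p v.1 := rfl

/-- Multiples of the shape plus translations. -/
noncomputable def sh (A : Finset V) (q : V → ℝ × ℝ) : (ℝ × (ℝ × ℝ)) →ₗ[ℝ] (A → ℝ × ℝ) where
  toFun s v := s.1 • q v.1 + s.2
  map_add' s t := by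
    funext v
    simp only [Prod.fst_add, Prod.snd_add, Pi.add_apply, add_smul]
    abel
  map_smul' c s := by
    funext v
    simp only [Prod.smul_fst, Prod.smul_snd, Pi.smul_apply, RingHom.id_apply, smul_add, smul_smul,
      smul_eq_mul]

theorem sh_apply (A : Finset V) (q : V → ℝ × ℝ) (s : ℝ × (ℝ × ℝ)) (v : A) :
    sh A q s v = s.1 • q v.1 + s.2 := rfl

theorem mem_range_sh (A : Finset V) (q : V → ℝ × ℝ) (p : V → ℝ × ℝ) :
    res A p ∈ LinearMap.range (sh A q) ↔
      ∃ (s : ℝ) (a : ℝ × ℝ), ∀ v ∈ A, p v = s • q v + a := by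
  constructor
  · rintro ⟨⟨s, a⟩, h⟩
    refine ⟨s, a, fun v hv => ?_⟩
    have := congrFun h ⟨v, hv⟩
    rw [sh_apply, res_apply] at this
    exact this.symm
  · rintro ⟨s, a, h⟩
    refine ⟨(s, a), ?_⟩
    funext v
    rw [sh_apply, res_apply]
    exact (h v.1 v.2).symm

theorem finrank_sh_le (A : Finset V) (q : V → ℝ × ℝ) :
    finrank ℝ (LinearMap.range (sh A q)) ≤ 3 := by
  refine (LinearMap.finrank_range_le _).trans ?_
  simp

theorem finrank_sh (A : Finset V) (q : V → ℝ × ℝ) (h : ∃ u ∈ A, ∃ v ∈ A, q u ≠ q v) :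
    finrank ℝ (LinearMap.range (sh A q)) = 3 := by
  obtain ⟨u, hu, v, hv, huv⟩ := h
  rw [LinearMap.finrank_range_of_inj]
  · simp
  · rw [← LinearMap.ker_eq_bot, LinearMap.ker_eq_bot']
    rintro ⟨s, a⟩ h0
    have h1 := congrFun h0 ⟨u, hu⟩
    have h2 := congrFun h0 ⟨v, hv⟩
    rw [sh_apply, Pi.zero_apply] at h1 h2
    have h3 : s • (q u - q v) = 0 := by
      have : s • q u + a - (s • q v + a) = 0 := by
        rw [h1, h2, sub_zero]
      rw [smul_sub]
      rw [← this]
      abel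
    have hs : s = 0 := by
      rcases smul_eq_zero.mp h3 with h | h
      · exact h
      · exact absurd (sub_eq_zero.mp h) huv
    subst hs
    rw [zero_smul, zero_add] at h1
    simp only at h1
    rw [h1]
    rfl

theorem finrank_pi_A (A : Finset V) : finrank ℝ (A → ℝ × ℝ) = 2 * A.card := by
  rw [Module.finrank_pi_fintype]
  simp
  ring

/-- YDROP. -/
theorem ydrop : YdropStatement := by
  intro V X _ _ B q Z Y x hx hP
  set T := kerR B q Z Y with hT
  set T' := kerR B q Z (insert x Y) with hT'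
  set r := res (B x) with hr
  set U := LinearMap.range (sh (B x) (q x)) with hU
  have hmem : ∀ p, p ∈ T' ↔ p ∈ T ∧ r p ∈ U := by
    intro p
    rw [hT', hT, hr, hU, mem_range_sh, mem_kerR, mem_kerR]
    constructor
    · rintro ⟨h1, h2⟩
      exact ⟨⟨h1, fun y hy => h2 y (mem_insert_of_mem hy)⟩, h2 x (mem_insert_self _ _)⟩
    · rintro ⟨⟨h1, h2⟩, h3⟩
      refine ⟨h1, fun y hy => ?_⟩
      rcases mem_insert.mp hy with rfl | hy
      · exact h3
      · exact h2 y hy
  -- the sum is everything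
  have htop : T.map r ⊔ U = ⊤ := by
    by_contra hne
    obtain ⟨f, hf0, hf⟩ := Submodule.exists_le_ker_of_lt_top _ (lt_top_iff_ne_top.mpr hne)
    obtain ⟨F, hF, hip⟩ := exists_ip (f ∘ₗ r)
    apply hP
    refine ⟨F, ?_, ?_, ?_, ?_⟩
    · intro h0
      apply hf0
      refine LinearMap.ext (fun g => ?_)
      have hg : ∃ p, r p = g := by
        refine ⟨fun v => if h : v ∈ B x then g ⟨v, h⟩ else 0, ?_⟩
        funext v
        rw [hr, res_apply]
        simp
      obtain ⟨p, rfl⟩ := hg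
      have := hip p
      rw [h0, map_zero] at this
      exact this.symm
    · intro v hv
      rw [hF]
      have h : ∀ a : ℝ × ℝ, r (Pi.single v a) = 0 := by
        intro a
        funext w
        rw [hr, res_apply]
        have : w.1 ≠ v := fun h => hv (h ▸ w.2)
        rw [Pi.single_eq_of_ne this]
        rfl
      rw [LinearMap.comp_apply, LinearMap.comp_apply, h, h, map_zero]
      rfl
    · have h : ∀ a : ℝ × ℝ, ip (fun _ => a) F = 0 := by
        intro a
        rw [hip, LinearMap.comp_apply]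
        have : r (fun _ => a) ∈ T.map r ⊔ U := by
          refine Submodule.mem_sup_right ?_
          rw [hU, hr, mem_range_sh]
          exact ⟨0, a, fun v _ => by simp⟩
        exact hf this
      have h1 := h (1, 0)
      have h2 := h (0, 1)
      rw [ip_apply] at h1 h2
      refine Prod.ext ?_ ?_
      · rw [Prod.fst_sum]
        simpa using h1
      · rw [Prod.snd_sum]
        simpa using h2
    · intro p hp
      rw [hip, LinearMap.comp_apply]
      exact hf (Submodule.mem_sup_left (Submodule.mem_map_of_mem hp))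
  have hk : (T' ⊓ LinearMap.ker r : Submodule ℝ (V → ℝ × ℝ)) = T ⊓ LinearMap.ker r := by
    ext p
    rw [Submodule.mem_inf, Submodule.mem_inf, hmem, LinearMap.mem_ker]
    constructor
    · rintro ⟨⟨h1, _⟩, h2⟩; exact ⟨h1, h2⟩
    · rintro ⟨h1, h2⟩
      exact ⟨⟨h1, by rw [h2]; exact Submodule.zero_mem _⟩, h2⟩
  have e1 := finrank_map_add r T
  have e2 := finrank_map_add r T'
  rw [hk] at e2
  have e3 := Submodule.finrank_sup_add_finrank_inf_eq (T.map r) U
  rw [htop, finrank_top, finrank_pi_A] at e3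
  have e4 : finrank ℝ U ≤ 3 := finrank_sh_le (B x) (q x)
  have e5 : finrank ℝ (T'.map r) ≤ finrank ℝ (T.map r ⊓ U : Submodule ℝ (B x → ℝ × ℝ)) := by
    refine Submodule.finrank_mono ?_
    rintro _ ⟨p, hp, rfl⟩
    have := (hmem p).mp hp
    exact ⟨Submodule.mem_map_of_mem this.1, this.2⟩
  omega

/-- Forces supported on a set. -/
def WW (Z : Finset V) : Submodule ℝ (V → ℝ × ℝ) where
  carrier := {F | ∀ v, v ∉ Z → F v = 0}
  add_mem' := by
    intro F G hF hG v hv
    rw [Pi.add_apply, hF v hv, hG v hv, add_zero]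
  zero_mem' := fun v _ => rfl
  smul_mem' := by
    intro a F hF v hv
    rw [Pi.smul_apply, hF v hv, smul_zero]

theorem mem_WW (Z : Finset V) (F : V → ℝ × ℝ) : F ∈ WW Z ↔ ∀ v, v ∉ Z → F v = 0 := Iff.rfl

theorem finrank_WW (Z : Finset V) : finrank ℝ (WW Z) = 2 * Z.card := by
  rw [← finrank_pi_A Z]
  refine LinearEquiv.finrank_eq (LinearEquiv.ofBijective ((res Z).domRestrict (WW Z)) ⟨?_, ?_⟩)
  · rw [← LinearMap.ker_eq_bot, LinearMap.ker_eq_bot']
    rintro ⟨F, hF⟩ h
    refine Subtype.ext ?_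
    funext v
    by_cases hv : v ∈ Z
    · exact congrFun h ⟨v, hv⟩
    · exact hF v hv
  · intro g
    refine ⟨⟨fun v => if h : v ∈ Z then g ⟨v, h⟩ else 0, fun v hv => by simp [hv]⟩, ?_⟩
    funext v
    rw [LinearMap.domRestrict_apply, res_apply]
    simp

/-- Sum of the forces and work on the shape. -/
noncomputable def cnd (q : V → ℝ × ℝ) : (V → ℝ × ℝ) →ₗ[ℝ] ((ℝ × ℝ) × ℝ) :=
  LinearMap.prod (∑ v, LinearMap.proj v) (ip q)

theorem cnd_apply (q F : V → ℝ × ℝ) : cnd q F = (∑ v, F v, ip q F) := by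
  rw [cnd, LinearMap.prod_apply]
  refine Prod.ext ?_ rfl
  show (∑ v, (LinearMap.proj v : (V → ℝ × ℝ) →ₗ[ℝ] ℝ × ℝ)) F = _
  rw [LinearMap.sum_apply]
  rfl

theorem finrank_MM (A : Finset V) (q : V → ℝ × ℝ) :
    2 * A.card - 3 ≤ finrank ℝ (WW A ⊓ LinearMap.ker (cnd q) : Submodule ℝ (V → ℝ × ℝ)) := by
  have h1 := finrank_map_add (cnd q) (WW A)
  have h2 : finrank ℝ ((WW A).map (cnd q)) ≤ 3 := by
    refine (Submodule.finrank_le _).trans ?_
    simp
  rw [finrank_WW] at h1
  omega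

theorem ip_shape (B : X → Finset V) (q : X → V → ℝ × ℝ) (p F : V → ℝ × ℝ) (x : X)
    (hF : F ∈ (WW (B x) ⊓ LinearMap.ker (cnd (q x)) : Submodule ℝ (V → ℝ × ℝ)))
    (hp : ∃ (s : ℝ) (a : ℝ × ℝ), ∀ v ∈ B x, p v = s • q x v + a) : ip p F = 0 := by
  obtain ⟨h1, h2⟩ := hF
  rw [SetLike.mem_coe, LinearMap.mem_ker, cnd_apply] at h2
  have h3 := congrArg Prod.fst h2
  have h4 := congrArg Prod.snd h2
  simp only [Prod.fst_zero, Prod.snd_zero] at h3 h4
  obtain ⟨s, a, hs⟩ := hp
  have h5 : ip p F = s * ip (q x) F + ((∑ v, F v).1 * a.1 + (∑ v, F v).2 * a.2) := by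
    rw [ip_apply, ip_apply, Finset.mul_sum, Prod.fst_sum, Prod.snd_sum, Finset.sum_mul,
      Finset.sum_mul, ← Finset.sum_add_distrib, ← Finset.sum_add_distrib]
    refine Finset.sum_congr rfl (fun v _ => ?_)
    by_cases hv : v ∈ B x
    · rw [hs v hv]
      simp only [Prod.fst_add, Prod.snd_add, Prod.smul_fst, Prod.smul_snd, smul_eq_mul]
      ring
    · rw [h1 v hv]
      simp
  rw [h5, h3, h4]
  simp

/-- YBASE. -/
theorem ybase : YbaseStatement := by
  intro V X _ _ B q Z Y hB hind hYZ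
  set M : X → Submodule ℝ (V → ℝ × ℝ) := fun x => WW (B x) ⊓ LinearMap.ker (cnd (q x)) with hM
  set G : (∀ x : Y, M x.1) →ₗ[ℝ] (V → ℝ × ℝ) :=
    ∑ x : Y, (M x.1).subtype ∘ₗ LinearMap.proj x with hG
  have hGa : ∀ Φ, G Φ = ∑ x : Y, (Φ x : V → ℝ × ℝ) := by
    intro Φ
    rw [hG, LinearMap.sum_apply]
    rfl
  have hinj : Function.Injective G := by
    rw [← LinearMap.ker_eq_bot, LinearMap.ker_eq_bot']
    intro Φ h0
    rw [hGa] at h0
    have h1 := hind (fun x => if h : x ∈ Y then (Φ ⟨x, h⟩ : V → ℝ × ℝ) else 0) ?_ ?_ ?_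
    · funext x
      have := congrFun h1 x.1
      simp only [x.2, dite_true] at this
      exact Subtype.ext this
    · refine ⟨fun x hx => absurd (mem_univ x) hx, fun x v hv => ?_, fun x => ?_⟩
      · by_cases h : x ∈ Y
        · simp only [h, dite_true]
          exact (Φ ⟨x, h⟩).2.1 v hv
        · simp [h]
      · by_cases h : x ∈ Y
        · simp only [h, dite_true]
          have h2 := (Φ ⟨x, h⟩).2.2
          rw [SetLike.mem_coe, LinearMap.mem_ker, cnd_apply] at h2
          exact congrArg Prod.fst h2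
        · simp [h]
    · intro x
      by_cases h : x ∈ Y
      · simp only [h, dite_true]
        have h2 := (Φ ⟨x, h⟩).2.2
        rw [SetLike.mem_coe, LinearMap.mem_ker, cnd_apply] at h2
        exact congrArg Prod.snd h2
      · simp [h]
    · rw [sumMap_apply]
      have h2 : ∑ x : X, (if h : x ∈ Y then (Φ ⟨x, h⟩ : V → ℝ × ℝ) else 0) =
          ∑ x ∈ Y, (if h : x ∈ Y then (Φ ⟨x, h⟩ : V → ℝ × ℝ) else 0) := by
        symm
        refine Finset.sum_subset (subset_univ _) (fun x _ hx => ?_)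
        simp [hx]
      rw [h2, ← Finset.sum_coe_sort Y, ← h0]
      refine Finset.sum_congr rfl (fun x _ => ?_)
      simp
  have hfr : finrank ℝ (LinearMap.range G) = ∑ x : Y, finrank ℝ (M x.1) := by
    rw [LinearMap.finrank_range_of_inj hinj, Module.finrank_pi_fintype]
  have hRk : Rk B Y ≤ finrank ℝ (LinearMap.range G) := by
    rw [hfr, Rk, ← Finset.sum_coe_sort Y]
    exact Finset.sum_le_sum (fun x _ => finrank_MM (B x.1) (q x.1))
  have hdisj : (kerR B q Z Y ⊓ LinearMap.range G : Submodule ℝ (V → ℝ × ℝ)) = ⊥ := by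
    rw [eq_bot_iff]
    rintro p ⟨hp, ⟨Φ, hΦ⟩⟩
    rw [hGa] at hΦ
    have h0 : ip p p = 0 := by
      have e : ip p p = ip p (∑ x : Y, (Φ x : V → ℝ × ℝ)) := by rw [hΦ]
      rw [e, map_sum]
      refine Finset.sum_eq_zero (fun x _ => ?_)
      exact ip_shape B q p _ x.1 (Φ x).2 (hp.2 x.1 x.2)
    rw [ip_apply] at h0
    rw [Submodule.mem_bot]
    funext v
    have h1 := (Finset.sum_eq_zero_iff_of_nonneg (fun v _ => by
      nlinarith [mul_self_nonneg (p v).1, mul_self_nonneg (p v).2])).mp h0 v (mem_univ v)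
    refine Prod.ext ?_ ?_
    · exact mul_self_eq_zero.mp (by nlinarith [mul_self_nonneg (p v).1, mul_self_nonneg (p v).2])
    · exact mul_self_eq_zero.mp (by nlinarith [mul_self_nonneg (p v).1, mul_self_nonneg (p v).2])
  have hle : (kerR B q Z Y ⊔ LinearMap.range G : Submodule ℝ (V → ℝ × ℝ)) ≤ WW Z := by
    refine sup_le (fun p hp => hp.1) ?_
    rintro _ ⟨Φ, rfl⟩
    rw [hGa]
    refine Submodule.sum_mem _ (fun x _ => ?_)
    intro v hv
    exact (Φ x).2.1 v (fun h => hv (hYZ x.1 x.2 h))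
  have h1 := Submodule.finrank_sup_add_finrank_inf_eq (kerR B q Z Y) (LinearMap.range G)
  rw [hdisj, finrank_bot] at h1
  have h2 := Submodule.finrank_mono hle
  rw [finrank_WW] at h2
  omega

/-- KDIM. -/
theorem kdim : KdimStatement := by
  intro V X _ _ B q hB hq
  set Ψ : (V → ℝ × ℝ) →ₗ[ℝ] (∀ x, (B x → ℝ × ℝ) ⧸ LinearMap.range (sh (B x) (q x))) :=
    LinearMap.pi (fun x => (LinearMap.range (sh (B x) (q x))).mkQ ∘ₗ res (B x)) with hΨ
  have hker : LinearMap.ker Ψ ≤ kerq B q := by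
    intro p hp
    rw [LinearMap.mem_ker] at hp
    rw [kerq, mem_kerR]
    refine ⟨fun v hv => absurd (mem_univ v) hv, fun x _ => ?_⟩
    have h := congrFun hp x
    rw [hΨ, LinearMap.pi_apply, LinearMap.comp_apply, Pi.zero_apply, Submodule.mkQ_apply,
      Submodule.Quotient.mk_eq_zero, mem_range_sh] at h
    exact h
  have h1 := LinearMap.finrank_range_add_finrank_ker Ψ
  have h2 : finrank ℝ (V → ℝ × ℝ) = 2 * Fintype.card V := by
    rw [Module.finrank_pi_fintype]
    simp
    ring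
  have h3 : finrank ℝ (LinearMap.range Ψ) ≤ Rk B univ := by
    refine (Submodule.finrank_le _).trans ?_
    rw [Module.finrank_pi_fintype, Rk]
    refine Finset.sum_le_sum (fun x _ => ?_)
    have h4 := Submodule.finrank_quotient_add_finrank (LinearMap.range (sh (B x) (q x)))
    rw [finrank_sh _ _ (hq x), finrank_pi_A] at h4
    omega
  have h4 := Submodule.finrank_mono hker
  omega

end Pool.Agent.Lib.MP_04668c_co.E.H80
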